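import Mathlib

/-!
The block inequality (piece (B)).
-/

set_option autoImplicit false

namespace Run7.h766

universe v

open Matrix

section tr

variable {n : ℕ} {m : Fin n → ℕ}

/-- trace of `x ↦ a x p` on a product of matrix algebras. -/
theorem trace_pi (a p : ∀ Y : Fin n, Matrix (Fin (m Y)) (Fin (m Y)) ℂ) :
    LinearMap.trace ℂ (∀ Y : Fin n, Matrix (Fin (m Y)) (Fin (m Y)) ℂ)
      (LinearMap.mulLeftRight ℂ (a, p)) = ∑ Y, (a Y).trace * (p Y).trace := by
  classical
  let b := Pi.basis (fun Y : Fin n => Matrix.stdBasis ℂ (Fin (m Y)) (Fin (m Y)))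
  rw [LinearMap.trace_eq_matrix_trace ℂ b, Matrix.trace]
  simp only [Matrix.diag_apply, LinearMap.toMatrix_apply]
  rw [Fintype.sum_sigma]
  apply Finset.sum_congr rfl
  intro Y _
  rw [Fintype.sum_prod_type, Matrix.trace, Matrix.trace, Finset.sum_mul_sum]
  apply Finset.sum_congr rfl
  intro i _
  apply Finset.sum_congr rfl
  intro j _
  simp only [b, Pi.basis_apply, Pi.basis_repr, LinearMap.mulLeftRight_apply, Matrix.diag_apply]
  rw [Pi.mul_apply, Pi.mul_apply, Pi.single_eq_same, Matrix.stdBasis_eq_single]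
  have h : ∀ M : Matrix (Fin (m Y)) (Fin (m Y)) ℂ,
      (Matrix.stdBasis ℂ (Fin (m Y)) (Fin (m Y))).repr M (i, j) = M i j := by
    intro M
    simp [Matrix.stdBasis]
  rw [h, Matrix.mul_apply, Finset.sum_eq_single j, Matrix.mul_apply, Finset.sum_eq_single i]
  · simp
  · intro k _ hk
    rw [Matrix.single_apply_of_row_ne hk.symm, mul_zero]
  · simp
  · intro k _ hk
    rw [Matrix.mul_single_apply_of_ne _ _ _ _ _ hk, zero_mul]
  · simp

theorem trace_idem {k : ℕ} (M : Matrix (Fin k) (Fin k) ℂ) (h : M * M = M) :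
    ∃ l : ℕ, M.trace = l := by
  have h1 : IsIdempotentElem (Matrix.toLin' M) := by
    unfold IsIdempotentElem
    rw [Module.End.mul_eq_comp, ← Matrix.toLin'_mul, h]
  refine ⟨Module.finrank ℂ (LinearMap.range (Matrix.toLin' M)), ?_⟩
  rw [← Matrix.trace_toLin'_eq]
  exact (LinearMap.IsIdempotentElem.isProj_range _ h1).trace

/-- A primitive idempotent matrix has trace one. -/
theorem trace_prim {k : ℕ} (M : Matrix (Fin k) (Fin k) ℂ) (h : M * M = M) (h0 : M ≠ 0)
    (hp : ∀ a : Matrix (Fin k) (Fin k) ℂ, ∃ c : ℂ, M * a * M = c • M) : M.trace = 1 := by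
  have h1 : IsIdempotentElem (Matrix.toLin' M) := by
    unfold IsIdempotentElem
    rw [Module.End.mul_eq_comp, ← Matrix.toLin'_mul, h]
  rw [← Matrix.trace_toLin'_eq, (LinearMap.IsIdempotentElem.isProj_range _ h1).trace]
  suffices Module.finrank ℂ (LinearMap.range (Matrix.toLin' M)) = 1 by rw [this]; simp
  rw [finrank_eq_one_iff']
  obtain ⟨v, hv⟩ : ∃ v, M *ᵥ v ≠ 0 := by
    by_contra hcon
    push Not at hcon
    apply h0
    apply (Matrix.toLin' (R := ℂ)).injective
    ext v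
    simp [hcon]
  set w := M *ᵥ v with hw
  have hMw : M *ᵥ w = w := by rw [hw, Matrix.mulVec_mulVec, h]
  refine ⟨⟨w, ⟨v, by simp [hw]⟩⟩, ?_, ?_⟩
  · intro hcon
    exact hv (congrArg Subtype.val hcon)
  · rintro ⟨u, ⟨u', hu'⟩⟩
    have hMu : M *ᵥ u = u := by
      rw [← hu', Matrix.toLin'_apply, Matrix.mulVec_mulVec, h]
    -- a matrix taking `w` to `u`
    obtain ⟨i, hi⟩ : ∃ i, w i ≠ 0 := by
      by_contra hcon
      push Not at hcon
      exact hv (funext hcon)
    obtain ⟨c, hc⟩ := hp (Matrix.vecMulVec u (Pi.single i (w i)⁻¹))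
    refine ⟨c, ?_⟩
    apply Subtype.ext
    show c • w = u
    have h2 : (M * Matrix.vecMulVec u (Pi.single i (w i)⁻¹) * M) *ᵥ w = u := by
      rw [← Matrix.mulVec_mulVec, hMw, ← Matrix.mulVec_mulVec]
      have h3 : Matrix.vecMulVec u (Pi.single i (w i)⁻¹) *ᵥ w = u := by
        ext j
        simp [Matrix.vecMulVec, Matrix.mulVec, dotProduct, Pi.single_apply, hi]
      rw [h3, hMu]
    rw [hc, Matrix.smul_mulVec, hMw] at h2
    exact h2

end tr

theorem block_ineq {A : Type v} [Ring A] [Algebra ℂ A] [FiniteDimensional ℂ A]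
    [IsSemisimpleRing A] {r : ℕ} (p : Fin r → A) (hp : ∀ i, p i * p i = p i) (d : Fin r → ℂ)
    (φ : ℂ ≃+* ℂ) (hd : ∀ i, (φ (d i)).im = 0) (τ : A → ℂ)
    (hτ : ∀ a, τ a = ∑ i, d i * LinearMap.trace ℂ A (LinearMap.mulLeftRight ℂ (a, p i)))
    (t : A) (ht : ∀ a, t * a = a * t)
    (hθ : ∀ μ : ℂ, Module.End.HasEigenvalue (LinearMap.mulLeft ℂ t) μ → ‖φ μ‖ = 1)
    (e : A) (he : e ≠ 0) (hee : e * e = e) (het : t * e = e)
    (hprim : ∀ a, ∃ c : ℂ, e * a * e = c • e) :
    8 * ‖φ (τ e)‖ ^ 2 ≤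
      (φ (∑ i, d i * (3 * τ (p i) + 4 * τ (t * p i) + τ (t * t * p i)))).re := by
  classical
  obtain ⟨n, m, hm, ⟨E⟩⟩ := IsSemisimpleRing.exists_algEquiv_pi_matrix_of_isAlgClosed ℂ A
  set tr : Fin n → A → ℂ := fun Y a => (E a Y).trace with htr
  have htrace : ∀ a b : A, LinearMap.trace ℂ A (LinearMap.mulLeftRight ℂ (a, b)) =
      ∑ Y, tr Y a * tr Y b := by
    intro a b
    rw [← LinearMap.trace_conj' _ E.toLinearEquiv, ← trace_pi (E a) (E b)]
    congr 1
    refine LinearMap.ext fun x => ?_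
    simp [LinearEquiv.conj_apply]
  set D : Fin n → ℂ := fun Y => ∑ i, d i * tr Y (p i) with hD
  have hτ' : ∀ a, τ a = ∑ Y, tr Y a * D Y := by
    intro a
    rw [hτ]
    simp only [htrace, hD, Finset.mul_sum]
    rw [Finset.sum_comm]
    apply Finset.sum_congr rfl; intro Y _
    apply Finset.sum_congr rfl; intro i _
    ring
  have hDre : ∀ Y, (φ (D Y)).im = 0 := by
    intro Y
    simp only [hD, map_sum, map_mul, Complex.im_sum]
    apply Finset.sum_eq_zero
    intro i _
    obtain ⟨k, hk⟩ := trace_idem (E (p i) Y) (by rw [← Pi.mul_apply, ← map_mul, hp])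
    have : tr Y (p i) = k := hk
    rw [this, map_natCast, Complex.mul_im, hd]
    simp
  -- the central element
  have hsc : ∀ Y, ∃ c : ℂ, E t Y = c • 1 := by
    intro Y
    have h1 : E t Y ∈ Set.range (Matrix.scalar (Fin (m Y))) := by
      rw [Matrix.mem_range_scalar_iff_commute_single']
      intro i j
      have h2 := congrArg (fun x => E x Y) (ht (E.symm (Pi.single Y (Matrix.single i j 1))))
      simp only [map_mul, AlgEquiv.apply_symm_apply, Pi.mul_apply, Pi.single_eq_same] at h2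
      exact h2.symm
    obtain ⟨c, hc⟩ := h1
    refine ⟨c, ?_⟩
    rw [← hc]
    ext i j
    simp [Matrix.scalar, Matrix.one_apply, Matrix.diagonal_apply]
  choose θ hθE using hsc
  have hθn : ∀ Y, ‖φ (θ Y)‖ = 1 := by
    intro Y
    apply hθ
    have := hm Y
    apply Module.End.hasEigenvalue_of_hasEigenvector (x := E.symm (Pi.single Y 1))
    refine ⟨?_, ?_⟩
    · rw [Module.End.mem_eigenspace_iff, LinearMap.mulLeft_apply]
      apply E.injective
      rw [map_mul, map_smul, AlgEquiv.apply_symm_apply]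
      funext Z
      by_cases hZ : Z = Y
      · subst hZ
        simp [hθE]
      · simp [Pi.single_eq_of_ne hZ]
    · intro h0
      have h1 : (Pi.single Y 1 : ∀ Z, Matrix (Fin (m Z)) (Fin (m Z)) ℂ) = 0 := by
        rw [← E.apply_symm_apply (Pi.single Y 1), h0, map_zero]
      have h2 := congrFun h1 Y
      rw [Pi.single_eq_same, Pi.zero_apply] at h2
      exact one_ne_zero h2
  have htr_t : ∀ Y a, tr Y (t * a) = θ Y * tr Y a := by
    intro Y a
    simp only [htr, map_mul, Pi.mul_apply, hθE]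
    simp
  -- the primitive idempotent
  obtain ⟨Y1, hY1⟩ : ∃ Y, E e Y ≠ 0 := by
    by_contra hcon
    push Not at hcon
    apply he
    apply E.injective
    rw [map_zero]
    exact funext hcon
  have hother : ∀ Y, Y ≠ Y1 → E e Y = 0 := by
    intro Y hY
    obtain ⟨c, hc⟩ := hprim (E.symm (Pi.single Y 1))
    have h1 := congrArg (fun x => E x Y1) hc
    simp only [map_mul, map_smul, AlgEquiv.apply_symm_apply, Pi.mul_apply, Pi.smul_apply,
      Pi.single_eq_of_ne hY.symm, mul_zero, zero_mul] at h1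
    have hc0 : c = 0 := by
      by_contra hne
      exact hY1 ((smul_eq_zero_iff_right hne).mp h1.symm)
    have h2 := congrArg (fun x => E x Y) hc
    simp only [map_mul, AlgEquiv.apply_symm_apply, Pi.mul_apply,
      Pi.single_eq_same, mul_one, hc0, zero_smul] at h2
    rw [← Pi.mul_apply, ← map_mul, hee] at h2
    rw [h2, map_zero, Pi.zero_apply]
  have htr1 : tr Y1 e = 1 := by
    apply trace_prim _ (by rw [← Pi.mul_apply, ← map_mul, hee]) hY1
    intro a
    obtain ⟨c, hc⟩ := hprim (E.symm (Pi.single Y1 a))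
    refine ⟨c, ?_⟩
    have h1 := congrArg (fun x => E x Y1) hc
    simpa only [map_mul, map_smul, AlgEquiv.apply_symm_apply, Pi.mul_apply, Pi.smul_apply,
      Pi.single_eq_same] using h1
  have hτe : τ e = D Y1 := by
    rw [hτ', Finset.sum_eq_single Y1]
    · rw [htr1, one_mul]
    · intro Y _ hY
      simp [htr, hother Y hY]
    · simp
  have hθ1 : θ Y1 = 1 := by
    have h1 := congrArg (fun x => E x Y1) het
    simp only [map_mul, Pi.mul_apply, hθE, smul_mul_assoc, one_mul] at h1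
    by_contra hne
    have h2 : (θ Y1 - 1) • E e Y1 = 0 := by rw [sub_smul, h1, one_smul, sub_self]
    exact hY1 ((smul_eq_zero_iff_right (sub_ne_zero.mpr hne)).mp h2)
  -- final computation
  have hsum : ∑ i, d i * (3 * τ (p i) + 4 * τ (t * p i) + τ (t * t * p i)) =
      ∑ Y, D Y ^ 2 * (3 + 4 * θ Y + θ Y ^ 2) := by
    have h1 : ∀ i, d i * (3 * τ (p i) + 4 * τ (t * p i) + τ (t * t * p i)) =
        ∑ Y, d i * tr Y (p i) * (D Y * (3 + 4 * θ Y + θ Y ^ 2)) := by
      intro i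
      rw [hτ', hτ', hτ', Finset.mul_sum, Finset.mul_sum, ← Finset.sum_add_distrib,
        ← Finset.sum_add_distrib, Finset.mul_sum]
      apply Finset.sum_congr rfl
      intro Y _
      rw [mul_assoc t t, htr_t Y (t * p i), htr_t Y (p i)]
      ring
    simp only [h1]
    rw [Finset.sum_comm]
    apply Finset.sum_congr rfl
    intro Y _
    rw [← Finset.sum_mul, sq]
    ring
  have hreal : ∀ Y, φ (D Y) = ((φ (D Y)).re : ℂ) := by
    intro Y
    apply Complex.ext
    · simp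
    · simp [hDre Y]
  have hterm : ∀ Y, (φ (D Y ^ 2 * (3 + 4 * θ Y + θ Y ^ 2))).re =
      (φ (D Y)).re ^ 2 * (2 * (1 + (φ (θ Y)).re) ^ 2) := by
    intro Y
    have h3 : φ (D Y ^ 2 * (3 + 4 * θ Y + θ Y ^ 2)) =
        φ (D Y) ^ 2 * (3 + 4 * φ (θ Y) + φ (θ Y) ^ 2) := by
      have e3 : φ (3 : ℂ) = 3 := map_ofNat φ 3
      have e4 : φ (4 : ℂ) = 4 := map_ofNat φ 4
      rw [map_mul, map_pow, map_add, map_add, map_mul, map_pow, e3, e4]
    rw [h3, hreal Y]
    have h4 : (φ (θ Y)).re ^ 2 + (φ (θ Y)).im ^ 2 = 1 := by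
      have := hθn Y
      have h5 := Complex.sq_norm_sub_sq_re (φ (θ Y))
      rw [this] at h5
      linarith
    have h5 : (((φ (D Y)).re : ℂ) ^ 2 * (3 + 4 * φ (θ Y) + φ (θ Y) ^ 2)).re =
        (φ (D Y)).re ^ 2 * (3 + 4 * (φ (θ Y)).re + ((φ (θ Y)).re ^ 2 - (φ (θ Y)).im ^ 2)) := by
      rw [← Complex.ofReal_pow, Complex.re_ofReal_mul]
      simp [sq]
    rw [h5]
    simp only [Complex.ofReal_re]
    have h6 : (φ (θ Y)).im ^ 2 = 1 - (φ (θ Y)).re ^ 2 := by linarith
    rw [h6]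
    ring
  rw [hsum, map_sum, Complex.re_sum]
  simp only [hterm]
  have hY : 8 * ‖φ (τ e)‖ ^ 2 = (φ (D Y1)).re ^ 2 * (2 * (1 + (φ (θ Y1)).re) ^ 2) := by
    rw [hτe, hreal Y1, hθ1]
    simp
    ring
  rw [hY]
  exact Finset.single_le_sum (f := fun Y => (φ (D Y)).re ^ 2 * (2 * (1 + (φ (θ Y)).re) ^ 2))
    (fun Y _ => by positivity) (Finset.mem_univ Y1)

end Run7.h766
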