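import Pool.Agent.Run7.h292.Half

/-!
Vafa's lemma (piece (D)): linear algebra part.
-/

set_option autoImplicit false

open CategoryTheory CategoryTheory.Limits MonoidalCategory

namespace Run7.h766

universe v u

/-! ### determinants -/

section det

variable {V V' : Type*} [AddCommGroup V] [Module ℂ V] [AddCommGroup V'] [Module ℂ V']

theorem det_eq_of_intertwine (e : V ≃ₗ[ℂ] V') (A : V →ₗ[ℂ] V) (B : V' →ₗ[ℂ] V')
    (h : ∀ x, e (A x) = B (e x)) : LinearMap.det A = LinearMap.det B := by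
  rw [← LinearMap.det_conj A e]
  congr 1
  ext x
  simp [h]

variable (φ : ℂ ≃+* ℂ)

theorem log_prod (s : Multiset ℂ) (h : ∀ μ ∈ s, μ ≠ 0) :
    Real.log ‖φ s.prod‖ = (s.map fun μ => Real.log ‖φ μ‖).sum := by
  induction s using Multiset.induction_on with
  | empty => simp
  | cons a s ih =>
    have h1 := h a (Multiset.mem_cons_self a s)
    have h2 : ∀ μ ∈ s, μ ≠ 0 := fun μ hμ => h μ (Multiset.mem_cons_of_mem hμ)
    have h3 : s.prod ≠ 0 := Multiset.prod_ne_zero fun h0 => h2 0 h0 rfl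
    rw [Multiset.prod_cons, Multiset.map_cons, Multiset.sum_cons, map_mul, norm_mul,
      Real.log_mul, ih h2]
    · simpa using h1
    · simpa using h3

variable [FiniteDimensional ℂ V]

theorem log_det (A : Module.End ℂ V) (hA : ∀ μ, A.HasEigenvalue μ → μ ≠ 0) :
    Real.log ‖φ (LinearMap.det A)‖ =
      (A.charpoly.roots.map fun μ => Real.log ‖φ μ‖).sum := by
  rw [Module.End.det_eq_prod_roots_charpoly_of_splits (IsAlgClosed.splits _), log_prod]
  intro μ hμ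
  apply hA
  rw [Module.End.hasEigenvalue_iff_isRoot_charpoly]
  exact Polynomial.isRoot_of_mem_roots hμ

theorem card_roots_charpoly (A : Module.End ℂ V) :
    (A.charpoly.roots.card : ℝ) = Module.finrank ℂ V := by
  have h := Polynomial.splits_iff_card_roots.mp (IsAlgClosed.splits A.charpoly)
  rw [h, LinearMap.charpoly_natDegree]

theorem abs_log_det_le (A : Module.End ℂ V) (b : ℝ)
    (hA : ∀ μ, A.HasEigenvalue μ → μ ≠ 0 ∧ |Real.log ‖φ μ‖| ≤ b) :
    |Real.log ‖φ (LinearMap.det A)‖| ≤ b * Module.finrank ℂ V := by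
  rw [log_det φ A fun μ hμ => (hA μ hμ).1, ← card_roots_charpoly A]
  have h : ∀ s : Multiset ℂ, (∀ μ ∈ s, |Real.log ‖φ μ‖| ≤ b) →
      |(s.map fun μ => Real.log ‖φ μ‖).sum| ≤ b * s.card := by
    intro s
    induction s using Multiset.induction_on with
    | empty => simp
    | cons a s ih =>
      intro h
      rw [Multiset.map_cons, Multiset.sum_cons, Multiset.card_cons]
      have h1 := h a (Multiset.mem_cons_self a s)
      have h2 := ih fun μ hμ => h μ (Multiset.mem_cons_of_mem hμ)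
      push_cast
      calc _ ≤ |Real.log ‖φ a‖| + _ := abs_add_le _ _
        _ ≤ _ := by linarith
  apply h
  intro μ hμ
  apply (hA μ _).2
  rw [Module.End.hasEigenvalue_iff_isRoot_charpoly]
  exact Polynomial.isRoot_of_mem_roots hμ

theorem log_det_eq (A : Module.End ℂ V) (μ₀ : ℂ) (h0 : μ₀ ≠ 0)
    (hA : ∀ μ, A.HasEigenvalue μ → μ = μ₀) :
    Real.log ‖φ (LinearMap.det A)‖ = Real.log ‖φ μ₀‖ * Module.finrank ℂ V := by
  rw [log_det φ A fun μ hμ => (hA μ hμ).symm ▸ h0, ← card_roots_charpoly A]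
  have h : ∀ s : Multiset ℂ, (∀ μ ∈ s, μ = μ₀) →
      (s.map fun μ => Real.log ‖φ μ‖).sum = Real.log ‖φ μ₀‖ * s.card := by
    intro s hs
    rw [Multiset.eq_replicate_card.mpr hs]
    simp [mul_comm]
  apply h
  intro μ hμ
  apply hA
  rw [Module.End.hasEigenvalue_iff_isRoot_charpoly]
  exact Polynomial.isRoot_of_mem_roots hμ

end det

/-! ### postcomposition -/

section post

variable {C : Type u} [Category.{v} C] [Preadditive C] [Linear ℂ C]

/-- postcomposition with `f` on `Hom(G, X)`. -/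
noncomputable abbrev post (G : C) {X : C} (f : X ⟶ X) : (G ⟶ X) →ₗ[ℂ] (G ⟶ X) :=
  Linear.rightComp ℂ G f

theorem post_comp (G : C) {X : C} (f g : X ⟶ X) : post G (f ≫ g) = post G g ∘ₗ post G f := by
  ext x
  simp

/-- composition with an isomorphism as a linear equivalence -/
noncomputable def postEquiv (G : C) {X Y : C} (h : X ≅ Y) : (G ⟶ X) ≃ₗ[ℂ] (G ⟶ Y) :=
  LinearEquiv.ofLinearMap (Linear.rightComp ℂ G h.hom) (Linear.rightComp ℂ G h.inv)
    (by ext x; simp) (by ext x; simp)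

theorem det_post_ne_zero (G : C) {X : C} (f : X ⟶ X) [IsIso f] :
    LinearMap.det (post G f) ≠ 0 := by
  intro h
  have h1 : post G (f ≫ inv f) = LinearMap.id := by
    ext x; simp
  have h2 := congrArg LinearMap.det h1
  rw [post_comp, LinearMap.det_comp, h, mul_zero, LinearMap.det_id] at h2
  exact zero_ne_one h2

/-- the log of the absolute value of the determinant of postcomposition -/
noncomputable def lg (φ : ℂ ≃+* ℂ) (G : C) {X : C} (f : X ⟶ X) : ℝ :=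
  Real.log ‖φ (LinearMap.det (post G f))‖

theorem lg_comp (φ : ℂ ≃+* ℂ) (G : C) {X : C} (f g : X ⟶ X) [IsIso f] [IsIso g] :
    lg φ G (f ≫ g) = lg φ G f + lg φ G g := by
  unfold lg
  rw [post_comp, LinearMap.det_comp, map_mul, norm_mul, Real.log_mul, add_comm]
  · simpa using det_post_ne_zero G g
  · simpa using det_post_ne_zero G f

theorem lg_conj (φ : ℂ ≃+* ℂ) (G : C) {X Y : C} (h : X ≅ Y) (f : Y ⟶ Y) :
    lg φ G (h.hom ≫ f ≫ h.inv) = lg φ G f := by
  unfold lg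
  rw [det_eq_of_intertwine (postEquiv G h) (post G (h.hom ≫ f ≫ h.inv)) (post G f)]
  intro x
  simp [postEquiv]

theorem finrank_iso (G : C) {X Y : C} (h : X ≅ Y) :
    Module.finrank ℂ (G ⟶ X) = Module.finrank ℂ (G ⟶ Y) :=
  (postEquiv G h).finrank_eq

end post

section tensor

variable {C : Type u} [Category.{v} C] [Preadditive C] [Linear ℂ C]
  [MonoidalCategory C] [MonoidalPreadditive C] [MonoidalLinear ℂ C]

/-- `tensorRightHomEquiv` as a linear equivalence -/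
noncomputable def trl (X Y Y' Z : C) [ExactPairing Y Y'] :
    (X ⊗ Y ⟶ Z) ≃ₗ[ℂ] (X ⟶ Z ⊗ Y') :=
  { tensorRightHomEquiv X Y Y' Z with
    map_add' := by
      intro f g
      simp [tensorRightHomEquiv]
    map_smul' := by
      intro c f
      simp [tensorRightHomEquiv] }

/-- `tensorLeftHomEquiv` as a linear equivalence -/
noncomputable def tll (X Y Y' Z : C) [ExactPairing Y Y'] :
    (Y' ⊗ X ⟶ Z) ≃ₗ[ℂ] (X ⟶ Y ⊗ Z) :=
  { tensorLeftHomEquiv X Y Y' Z with
    map_add' := by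
      intro f g
      simp [tensorLeftHomEquiv]
    map_smul' := by
      intro c f
      simp [tensorLeftHomEquiv] }

theorem lg_whiskerRight (φ : ℂ ≃+* ℂ) (G : C) {X : C} (f : X ⟶ X) (B : C) [HasLeftDual B] :
    lg φ G (f ▷ B) = lg φ (G ⊗ (ᘁB : C)) f := by
  unfold lg
  rw [det_eq_of_intertwine (trl G (ᘁB : C) B X) (post (G ⊗ (ᘁB : C)) f) (post G (f ▷ B))]
  intro x
  exact tensorRightHomEquiv_naturality x f

theorem lg_whiskerLeft (φ : ℂ ≃+* ℂ) (G : C) {X : C} (f : X ⟶ X) (B : C) [HasRightDual B] :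
    lg φ G (B ◁ f) = lg φ ((Bᘁ : C) ⊗ G) f := by
  unfold lg
  rw [det_eq_of_intertwine (tll G B (Bᘁ : C) X) (post ((Bᘁ : C) ⊗ G) f) (post G (B ◁ f))]
  intro x
  exact tensorLeftHomEquiv_naturality x f

theorem finrank_right (G X B : C) [HasLeftDual B] :
    Module.finrank ℂ (G ⟶ X ⊗ B) = Module.finrank ℂ (G ⊗ (ᘁB : C) ⟶ X) :=
  (trl G (ᘁB : C) B X).finrank_eq.symm

theorem finrank_left (G X B : C) [HasRightDual B] :
    Module.finrank ℂ (G ⟶ B ⊗ X) = Module.finrank ℂ ((Bᘁ : C) ⊗ G ⟶ X) :=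
  (tll G B (Bᘁ : C) X).finrank_eq.symm

end tensor

/-! ### double braidings -/

section dbl

variable {D : Type u} [Category.{v} D] [MonoidalCategory D] [BraidedCategory D]

/-- double braiding -/
def dbl (A B : D) : A ⊗ B ⟶ A ⊗ B := (β_ A B).hom ≫ (β_ B A).hom

instance (A B : D) : IsIso (dbl A B) := by unfold dbl; infer_instance

theorem dbl_comm (A B : D) : dbl A B = (β_ A B).hom ≫ dbl B A ≫ (β_ A B).inv := by
  simp [dbl]

theorem dbl_tensor (A B X : D) : dbl (A ⊗ B) X =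
    ((α_ A B X ≪≫ whiskerLeftIso A (β_ B X) ≪≫ (α_ A X B).symm).hom ≫
      (dbl A X ▷ B) ≫ (α_ A B X ≪≫ whiskerLeftIso A (β_ B X) ≪≫ (α_ A X B).symm).inv) ≫
      ((α_ A B X).hom ≫ (A ◁ dbl B X) ≫ (α_ A B X).inv) := by
  unfold dbl
  rw [BraidedCategory.braiding_tensor_left_hom, BraidedCategory.braiding_tensor_right_hom]
  simp

end dbl

/-! ### spectral idempotents -/

section alg

variable {A : Type*} [Ring A] [Algebra ℂ A] [FiniteDimensional ℂ A]

open Polynomial in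
theorem exists_idem (a : A) (μ : ℂ) : ∃ q : ℂ[X], q.eval μ = 1 ∧
    aeval a q * aeval a q = aeval a q ∧
    ∃ k : ℕ, aeval a ((X - C μ) ^ k) * aeval a q = 0 := by
  have hm : minpoly ℂ a ≠ 0 := minpoly.ne_zero (Algebra.IsIntegral.isIntegral a)
  obtain ⟨r, hr, hr'⟩ := Polynomial.exists_eq_pow_rootMultiplicity_mul_and_not_dvd _ hm μ
  set k := (minpoly ℂ a).rootMultiplicity μ
  have hcop : IsCoprime ((X - C μ) ^ (k + 1)) r :=
    IsCoprime.pow_left (((Polynomial.irreducible_X_sub_C μ).coprime_iff_not_dvd).mpr hr')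
  obtain ⟨u, w, huw⟩ := hcop
  have h0 : aeval a ((X - C μ) ^ k * r) = 0 := by rw [← hr]; exact minpoly.aeval ℂ a
  refine ⟨w * r, ?_, ?_, k, ?_⟩
  · have := congrArg (eval μ) huw
    simpa using this
  · rw [← map_mul, ← sub_eq_zero, ← map_sub]
    have h1 : w * r * (w * r) - w * r = -(w * u * (X - C μ)) * ((X - C μ) ^ k * r) := by
      have h2 : w * r = 1 - u * (X - C μ) ^ (k + 1) := by rw [← huw]; ring
      calc w * r * (w * r) - w * r = - (w * r) * (1 - w * r) := by ring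
        _ = - (w * r) * (u * (X - C μ) ^ (k + 1)) := by
          congr 1; rw [h2]; ring
        _ = _ := by ring
    rw [h1, map_mul, h0, mul_zero]
  · rw [← map_mul]
    have h1 : (X - C μ) ^ k * (w * r) = w * ((X - C μ) ^ k * r) := by ring
    rw [h1, map_mul, h0, mul_zero]

end alg

section center

variable {C : Type u} [Category.{v} C] [Preadditive C] [Linear ℂ C]

open Polynomial in
theorem comp_aeval {G X : C} (h : G ⟶ X) (a : End X) (ν : ℂ) (ha : h ≫ a = ν • h) (q : ℂ[X]) :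
    h ≫ (aeval a q : End X) = q.eval ν • h := by
  have hpow : ∀ n : ℕ, h ≫ ((a ^ n : End X) : X ⟶ X) = ν ^ n • h := by
    intro n
    induction n with
    | zero =>
      rw [pow_zero, pow_zero, one_smul]
      exact Category.comp_id h
    | succ n ih =>
      have h1 : ((a ^ (n + 1) : End X) : X ⟶ X) = a ≫ ((a ^ n : End X) : X ⟶ X) := by
        rw [pow_succ]; rfl
      rw [h1, ← Category.assoc, ha, Linear.smul_comp, ih, smul_smul, pow_succ']
  induction q using Polynomial.induction_on' with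
  | add p q hp hq =>
    rw [map_add, eval_add, add_smul, ← hp, ← hq]
    exact Preadditive.comp_add _ _ _ _ _ _
  | monomial n c =>
    rw [aeval_monomial, eval_monomial, ← smul_smul, ← hpow n, ← Linear.comp_smul]
    congr 1
    rw [Algebra.algebraMap_eq_smul_one, smul_mul_assoc, one_mul]

variable [MonoidalCategory C] [MonoidalPreadditive C] [MonoidalLinear ℂ C]

/-- endomorphisms of the underlying object compatible with the half-braiding -/
def adm (W : Center C) : Subalgebra ℂ (End W.1) where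
  carrier := {x | ∀ U, (x : W.1 ⟶ W.1) ▷ U ≫ (W.2.β U).hom = (W.2.β U).hom ≫ U ◁ (x : W.1 ⟶ W.1)}
  mul_mem' := by
    intro x y hx hy U
    have h1 : ((x * y : End W.1) : W.1 ⟶ W.1) = (y : W.1 ⟶ W.1) ≫ (x : W.1 ⟶ W.1) := rfl
    rw [h1, comp_whiskerRight, Category.assoc, hx U, ← Category.assoc, hy U, Category.assoc,
      MonoidalCategory.whiskerLeft_comp]
  add_mem' := by
    intro x y hx hy U
    have h1 : ((x + y : End W.1) : W.1 ⟶ W.1) = (x : W.1 ⟶ W.1) + (y : W.1 ⟶ W.1) := rfl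
    rw [h1, MonoidalPreadditive.add_whiskerRight, MonoidalPreadditive.whiskerLeft_add,
      Preadditive.add_comp, Preadditive.comp_add, hx U, hy U]
  algebraMap_mem' := by
    intro c U
    have h1 : ((algebraMap ℂ (End W.1) c : End W.1) : W.1 ⟶ W.1) = c • 𝟙 W.1 := by
      rw [Algebra.algebraMap_eq_smul_one]; rfl
    rw [h1, MonoidalLinear.smul_whiskerRight, MonoidalLinear.whiskerLeft_smul,
      Linear.smul_comp, Linear.comp_smul]
    simp

end center

section main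

variable {C : Type u} [Category.{v} C] [Abelian C] [Linear ℂ C]
  [MonoidalCategory C] [MonoidalPreadditive C] [MonoidalLinear ℂ C] [RigidCategory C]

omit [RigidCategory C] in
open Polynomial in
/-- splitting off a generalised eigenspace of the twist -/
theorem exists_block (hfd : ∀ X Y : C, FiniteDimensional ℂ (X ⟶ Y))
    (θ : ∀ W : Center C, W ≅ W)
    (nat : ∀ {W W' : Center C} (f : W ⟶ W'), f ≫ (θ W').hom = (θ W).hom ≫ f)
    (W : Center C) (G : C) (μ : ℂ)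
    (hμ : Module.End.HasEigenvalue (post G (θ W).hom.f) μ) :
    ∃ Y : Center C, (𝟙 Y.1 ≠ 0) ∧ ∀ (G' : C) (ν : ℂ),
      Module.End.HasEigenvalue (post G' (θ Y).hom.f) ν → ν = μ := by
  have : FiniteDimensional ℂ (End W.1) := hfd W.1 W.1
  set a : End W.1 := (θ W).hom.f with ha
  obtain ⟨q, hq1, hqq, k, hk⟩ := exists_idem a μ
  have haadm : a ∈ adm W := by
    intro U
    exact (θ W).hom.comm U
  have hadm : (aeval a q : End W.1) ∈ adm W := by
    have h1 : Algebra.adjoin ℂ {a} ≤ adm W :=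
      Algebra.adjoin_le (Set.singleton_subset_iff.mpr haadm)
    exact h1 (Polynomial.aeval_mem_adjoin_singleton ℂ a)
  let e : W ⟶ W := ⟨(aeval a q : End W.1), hadm⟩
  have hee : e.f ≫ e.f = e.f := hqq
  obtain ⟨Q, i, p, hip, hpi⟩ := IsIdempotentComplete.idempotents_split W.1 e.f hee
  obtain ⟨Y, i', p', h1, h2⟩ := Run7.h292.exists_split W e i p hip hpi
  obtain ⟨g₀, hg₀⟩ := hμ.exists_hasEigenvector
  have hg₀a : g₀ ≫ a = μ • g₀ := hg₀.apply_eq_smul
  refine ⟨Y, ?_, ?_⟩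
  · intro h0
    apply hg₀.2
    have h3 : g₀ ≫ e.f = g₀ := by
      have := comp_aeval g₀ a μ hg₀a q
      rw [hq1, one_smul] at this
      exact this
    rw [← h3, ← h2]
    have h4 : p'.f = p'.f ≫ 𝟙 Y.1 := (Category.comp_id _).symm
    rw [Center.comp_f, h4, h0]
    simp
  · intro G' ν hν
    obtain ⟨g, hg⟩ := hν.exists_hasEigenvector
    have hgθ : g ≫ (θ Y).hom.f = ν • g := hg.apply_eq_smul
    set h : G' ⟶ W.1 := g ≫ i'.f with hh
    have hne : h ≠ 0 := by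
      intro h0
      apply hg.2
      have h3 : i'.f ≫ p'.f = 𝟙 Y.1 := by rw [← Center.comp_f, h1]; rfl
      rw [← Category.comp_id g, ← h3, ← Category.assoc, ← hh, h0, Limits.zero_comp]
    have hha : h ≫ a = ν • h := by
      have h3 : i'.f ≫ (θ W).hom.f = (θ Y).hom.f ≫ i'.f := by
        rw [← Center.comp_f, nat i']; rfl
      rw [hh, Category.assoc, ha, h3, ← Category.assoc, hgθ, Linear.smul_comp]
    have hhe : h ≫ e.f = h := by
      rw [hh, ← h2, Center.comp_f, Category.assoc]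
      have h3 : i'.f ≫ p'.f = 𝟙 Y.1 := by rw [← Center.comp_f, h1]; rfl
      rw [← Category.assoc i'.f, h3, Category.id_comp]
    have h5 : h ≫ (aeval a ((X - Polynomial.C μ) ^ k) : End W.1) = 0 := by
      have h6 : e.f ≫ (aeval a ((X - Polynomial.C μ) ^ k) : End W.1) = 0 := hk
      rw [← hhe, Category.assoc, h6, Limits.comp_zero]
    rw [comp_aeval h a ν hha] at h5
    have h6 := (smul_eq_zero.mp h5).resolve_right hne
    simp only [eval_pow, eval_sub, eval_X, eval_C] at h6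
    exact sub_eq_zero.mp (eq_zero_of_pow_eq_zero h6)

omit [Linear ℂ C] [MonoidalLinear ℂ C] in
theorem tensor_self_ne_zero (A : Center C) (h : 𝟙 A.1 ≠ 0) : 𝟙 (A ⊗ A).1 ≠ 0 := by
  intro h0
  apply h
  have h0' : 𝟙 (A.1 ⊗ A.1) = 0 := h0
  have h1 := ExactPairing.evaluation_coevaluation A.1 (A.1ᘁ)
  -- `A ⊗ (A* ⊗ A)` is zero
  have h2 : A.1 ◁ (ε_ A.1 (A.1ᘁ)) = 0 := by
    have h3 : 𝟙 (A.1 ⊗ (A.1 ⊗ (A.1ᘁ : C))) = 0 := by
      have h4 : 𝟙 (A.1 ⊗ (A.1 ⊗ (A.1ᘁ : C))) =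
          (α_ A.1 A.1 (A.1ᘁ : C)).inv ≫ (𝟙 (A.1 ⊗ A.1)) ▷ (A.1ᘁ : C) ≫
            (α_ A.1 A.1 (A.1ᘁ : C)).hom := by simp
      rw [h4, h0']
      simp
    have h5 : A.1 ◁ (ε_ A.1 (A.1ᘁ)) = A.1 ◁ (A.2.β (A.1ᘁ : C)).inv ≫
        𝟙 (A.1 ⊗ (A.1 ⊗ (A.1ᘁ : C))) ≫ A.1 ◁ ((A.2.β (A.1ᘁ : C)).hom ≫ ε_ A.1 (A.1ᘁ)) := by
      rw [Category.id_comp, ← MonoidalCategory.whiskerLeft_comp, Iso.inv_hom_id_assoc]
    rw [h5, h3]
    simp
  rw [h2] at h1
  have h6 : 𝟙 A.1 = (λ_ A.1).inv ≫ ((λ_ A.1).hom ≫ (ρ_ A.1).inv) ≫ (ρ_ A.1).hom := by simp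
  rw [h6, ← h1]
  simp

/-- double braiding, as a morphism of `C` -/
noncomputable def dc (A X : Center C) : A.1 ⊗ X.1 ⟶ A.1 ⊗ X.1 := (dbl A X).f

omit [Abelian C] [Linear ℂ C] [MonoidalPreadditive C] [MonoidalLinear ℂ C] [RigidCategory C] in
theorem isIso_f {X Y : Center C} (f : X ⟶ Y) [IsIso f] : IsIso f.f :=
  inferInstanceAs (IsIso ((Center.forget C).map f))

omit [Abelian C] [Linear ℂ C] [MonoidalPreadditive C] [MonoidalLinear ℂ C] [RigidCategory C] in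
theorem isIso_dc (A X : Center C) : IsIso (dc A X) := isIso_f (dbl A X)

omit [Abelian C] [Linear ℂ C] [MonoidalPreadditive C] [MonoidalLinear ℂ C] [RigidCategory C] in
theorem dc_comm (A X : Center C) :
    dc A X = (A.2.β X.1).hom ≫ dc X A ≫ (A.2.β X.1).inv := by
  have h := congrArg (fun g => g.f) (dbl_comm A X)
  have h2 : (β_ A X).inv.f = (A.2.β X.1).inv := by
    apply Iso.inv_ext' (f := A.2.β X.1)
    exact congrArg (fun g => g.f) (β_ A X).hom_inv_id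
  rw [← h2]
  exact h

omit [Abelian C] [Linear ℂ C] [MonoidalPreadditive C] [MonoidalLinear ℂ C] [RigidCategory C] in
theorem dc_tensor (A B X : Center C) :
    (dc (A ⊗ B) X : (A.1 ⊗ B.1) ⊗ X.1 ⟶ (A.1 ⊗ B.1) ⊗ X.1) =
      ((α_ A.1 B.1 X.1 ≪≫ whiskerLeftIso A.1 (B.2.β X.1) ≪≫ (α_ A.1 X.1 B.1).symm).hom ≫
      (dc A X ▷ B.1) ≫
      (α_ A.1 B.1 X.1 ≪≫ whiskerLeftIso A.1 (B.2.β X.1) ≪≫ (α_ A.1 X.1 B.1).symm).inv) ≫
      ((α_ A.1 B.1 X.1).hom ≫ (A.1 ◁ dc B X) ≫ (α_ A.1 B.1 X.1).inv) := by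
  have h1 : (dc (A ⊗ B) X : (A.1 ⊗ B.1) ⊗ X.1 ⟶ (A.1 ⊗ B.1) ⊗ X.1) =
      (α_ A.1 B.1 X.1).hom ≫ A.1 ◁ (B.2.β X.1).hom ≫ (α_ A.1 X.1 B.1).inv ≫
      (dc A X ▷ B.1) ≫ (α_ A.1 X.1 B.1).hom ≫ A.1 ◁ (X.2.β B.1).hom ≫
      (α_ A.1 B.1 X.1).inv := by
    have h2 : dbl (A ⊗ B) X = (α_ A B X).hom ≫ A ◁ (β_ B X).hom ≫ (α_ A X B).inv ≫
      (dbl A X ▷ B) ≫ (α_ A X B).hom ≫ A ◁ (β_ X B).hom ≫ (α_ A B X).inv := by
      unfold dbl
      rw [BraidedCategory.braiding_tensor_left_hom, BraidedCategory.braiding_tensor_right_hom]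
      simp
    have h3 := congrArg (fun g => g.f) h2
    simp only [Center.comp_f, Center.associator_hom_f, Center.associator_inv_f] at h3
    exact h3
  have h4 : dc B X = (B.2.β X.1).hom ≫ (X.2.β B.1).hom := rfl
  rw [h1, h4]
  simp

/-- (D) Vafa: the eigenvalues of a twist on the centre of a fusion category have absolute value
one, in every complex embedding. -/
theorem vafa (hfd : ∀ X Y : C, FiniteDimensional ℂ (X ⟶ Y))
    (θ : ∀ W : Center C, W ≅ W)
    (nat : ∀ {W W' : Center C} (f : W ⟶ W'), f ≫ (θ W').hom = (θ W).hom ≫ f)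
    (rib : ∀ W W' : Center C, (θ (W ⊗ W')).hom =
      ((θ W).hom ⊗ₘ (θ W').hom) ≫ (β_ W W').hom ≫ (β_ W' W).hom)
    (T : Finset ℂ) (hT : ∀ (W : Center C) (G : C) (μ : ℂ),
      Module.End.HasEigenvalue (post G (θ W).hom.f) μ → μ ∈ T)
    (φ : ℂ ≃+* ℂ) (W : Center C) (G : C) (μ : ℂ)
    (hμ : Module.End.HasEigenvalue (post G (θ W).hom.f) μ) : ‖φ μ‖ = 1 := by
  have hθiso : ∀ V : Center C, IsIso (θ V).hom.f := fun V => isIso_f _
  -- eigenvalues are nonzero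
  have hne0 : ∀ (V : Center C) (G : C) (ν : ℂ),
      Module.End.HasEigenvalue (post G (θ V).hom.f) ν → ν ≠ 0 := by
    rintro V G ν hν rfl
    obtain ⟨g, hg⟩ := hν.exists_hasEigenvector
    apply hg.2
    have h1 : g ≫ (θ V).hom.f = (0 : ℂ) • g := hg.apply_eq_smul
    rw [zero_smul] at h1
    have := hθiso V
    exact (cancel_mono (θ V).hom.f).mp (by rw [h1, Limits.zero_comp])
  by_contra hcon
  -- the maximum
  set E : Set ℂ := {ν | ∃ (V : Center C) (G : C),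
    Module.End.HasEigenvalue (post G (θ V).hom.f) ν} with hE
  have hEfin : E.Finite := T.finite_toSet.subset (by
    rintro ν ⟨V, G, h⟩
    exact hT V G ν h)
  obtain ⟨μ₀, ⟨W₀, G₀, hμ₀⟩, hmax⟩ := Set.exists_max_image E (fun ν => |Real.log ‖φ ν‖|) hEfin
    ⟨μ, W, G, hμ⟩
  set b : ℝ := |Real.log ‖φ μ₀‖| with hb
  have hbpos : 0 < b := by
    have h1 : |Real.log ‖φ μ‖| ≤ b := hmax μ ⟨W, G, hμ⟩
    have h2 : 0 < |Real.log ‖φ μ‖| := by
      rw [abs_pos]
      have h3 : 0 < ‖φ μ‖ := by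
        rw [norm_pos_iff]
        simpa using hne0 W G μ hμ
      exact Real.log_ne_zero_of_pos_of_ne_one h3 hcon
    exact h2.trans_le h1
  obtain ⟨Y, hY0, hY⟩ := exists_block hfd θ nat W₀ G₀ μ₀ hμ₀
  set s : ℝ := Real.log ‖φ μ₀‖ with hs
  obtain ⟨ε, hε, hεs⟩ : ∃ ε : ℝ, |ε| = 1 ∧ ε * s = b := by
    rcases le_total 0 s with h | h
    · exact ⟨1, by simp, by rw [hb, abs_of_nonneg h, one_mul]⟩
    · exact ⟨-1, by simp, by rw [hb, abs_of_nonpos h]; ring⟩
  have hεle : ∀ x : ℝ, |ε * x| = |x| := by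
    intro x
    rw [abs_mul, hε, one_mul]
  -- (1)
  have bound : ∀ (V : Center C) (G : C),
      |lg φ G (θ V).hom.f| ≤ b * Module.finrank ℂ (G ⟶ V.1) := by
    intro V G
    apply abs_log_det_le
    intro ν hν
    exact ⟨hne0 V G ν hν, hmax ν ⟨V, G, hν⟩⟩
  -- (2)
  have exact' : ∀ G : C, lg φ G (θ Y).hom.f = s * Module.finrank ℂ (G ⟶ Y.1) := by
    intro G
    apply log_det_eq
    · exact hne0 _ _ _ hμ₀
    · exact hY G
  -- (3)
  have ribbon : ∀ (V V' : Center C) (G : C), lg φ G (θ (V ⊗ V')).hom.f =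
      lg φ (G ⊗ (ᘁV'.1 : C)) (θ V).hom.f + lg φ ((V.1ᘁ : C) ⊗ G) (θ V').hom.f +
        lg φ G (dc V V') := by
    intro V V' G
    have := hθiso V
    have := hθiso V'
    have h1 : ((θ (V ⊗ V')).hom.f : V.1 ⊗ V'.1 ⟶ V.1 ⊗ V'.1) =
        ((θ V).hom.f ▷ V'.1 ≫ V.1 ◁ (θ V').hom.f) ≫ dc V V' := by
      rw [rib, Center.comp_f, Center.tensor_f, MonoidalCategory.tensorHom_def]
      rfl
    have := isIso_dc V V'
    change lg φ G (X := V.1 ⊗ V'.1) (θ (V ⊗ V')).hom.f = _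
    rw [h1, lg_comp, lg_comp, lg_whiskerRight, lg_whiskerLeft]
  -- pairs
  let P : Center C → Center C → ℝ → Prop := fun A X c =>
    ∀ G : C, ε * lg φ G (dc A X) ≤ -c * b * Module.finrank ℂ (G ⟶ A.1 ⊗ X.1)
  have P_base : P Y Y 1 := by
    intro G
    have h1 := ribbon Y Y G
    rw [exact', exact', ← finrank_right, ← finrank_left] at h1
    have h2 := bound (Y ⊗ Y) G
    have h3 : ε * lg φ G (θ (Y ⊗ Y)).hom.f ≤ b * Module.finrank ℂ (G ⟶ Y.1 ⊗ Y.1) :=
      (le_abs_self _).trans ((hεle _).le.trans h2)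
    have h4 : lg φ G (dc Y Y) = lg φ G (θ (Y ⊗ Y)).hom.f -
        2 * (s * Module.finrank ℂ (G ⟶ Y.1 ⊗ Y.1)) := by
      rw [h1]; ring
    rw [h4, mul_sub]
    have h5 : ε * (2 * (s * (Module.finrank ℂ (G ⟶ Y.1 ⊗ Y.1) : ℝ))) =
        2 * b * Module.finrank ℂ (G ⟶ Y.1 ⊗ Y.1) := by
      rw [← hεs]; ring
    rw [h5]
    linarith
  have P_comm : ∀ A X c, P A X c → P X A c := by
    intro A X c h G
    rw [dc_comm, lg_conj, finrank_iso G (X.2.β A.1)]
    exact h G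
  have P_tensor : ∀ A B X c c', P A X c → P B X c' → P (A ⊗ B) X (c + c') := by
    intro A B X c c' h h' G
    have i1 := isIso_dc A X
    have i2 := isIso_dc B X
    have h2 := finrank_iso G
      (α_ A.1 B.1 X.1 ≪≫ whiskerLeftIso A.1 (B.2.β X.1) ≪≫ (α_ A.1 X.1 B.1).symm)
    have h3 := finrank_iso G (α_ A.1 B.1 X.1)
    change ε * lg φ G (X := (A.1 ⊗ B.1) ⊗ X.1) (dc (A ⊗ B) X) ≤ _
    rw [dc_tensor, lg_comp, lg_conj, lg_conj, lg_whiskerRight, lg_whiskerLeft]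
    have e1 := h (G ⊗ (ᘁB.1 : C))
    have e2 := h' ((A.1ᘁ : C) ⊗ G)
    rw [← finrank_right, ← h2] at e1
    rw [← finrank_left, ← h3] at e2
    have e3 : Module.finrank ℂ (G ⟶ (A ⊗ B).1 ⊗ X.1) =
      Module.finrank ℂ (G ⟶ (A.1 ⊗ B.1) ⊗ X.1) := rfl
    rw [e3]
    linarith
  have P2 : P (Y ⊗ Y) Y 2 := by
    have := P_tensor Y Y Y 1 1 P_base P_base
    rwa [one_add_one_eq_two] at this
  have P2' := P_comm _ _ _ P2
  have P4 : P (Y ⊗ Y) (Y ⊗ Y) 4 := by
    have := P_tensor Y Y (Y ⊗ Y) 2 2 P2' P2'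
    norm_num at this
    exact this
  -- conclusion
  set V := Y ⊗ Y with hV
  have hVV : 𝟙 (V ⊗ V).1 ≠ 0 := tensor_self_ne_zero V (tensor_self_ne_zero Y hY0)
  set G' : C := (V ⊗ V).1 with hG'
  have hn : 0 < Module.finrank ℂ (G' ⟶ V.1 ⊗ V.1) := by
    have : FiniteDimensional ℂ (G' ⟶ V.1 ⊗ V.1) := hfd _ _
    rw [Module.finrank_pos_iff_exists_ne_zero]
    exact ⟨𝟙 _, hVV⟩
  have hn' : (0 : ℝ) < Module.finrank ℂ (G' ⟶ V.1 ⊗ V.1) := by exact_mod_cast hn
  have h1 := ribbon V V G'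
  have h2 := P4 G'
  have h3 := bound V (G' ⊗ (ᘁV.1 : C))
  have h4 := bound V ((V.1ᘁ : C) ⊗ G')
  have h5 := bound (V ⊗ V) G'
  rw [← finrank_right] at h3
  rw [← finrank_left] at h4
  have h5' : |lg φ G' (θ (V ⊗ V)).hom.f| ≤ b * Module.finrank ℂ (G' ⟶ V.1 ⊗ V.1) := h5
  have h6 : -(b * Module.finrank ℂ (G' ⟶ V.1 ⊗ V.1)) ≤ ε * lg φ G' (θ (V ⊗ V)).hom.f := by
    rw [← hεle] at h5'
    exact (abs_le.mp h5').1
  have h7 : ε * lg φ (G' ⊗ (ᘁV.1 : C)) (θ V).hom.f ≤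
      b * Module.finrank ℂ (G' ⟶ V.1 ⊗ V.1) := by
    rw [← hεle] at h3
    exact (abs_le.mp h3).2
  have h8 : ε * lg φ ((V.1ᘁ : C) ⊗ G') (θ V).hom.f ≤
      b * Module.finrank ℂ (G' ⟶ V.1 ⊗ V.1) := by
    rw [← hεle] at h4
    exact (abs_le.mp h4).2
  rw [h1] at h6
  nlinarith

end main

end Run7.h766
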